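import Pool.Agent.R592.Ba.Defs

/-!
Project BAF (Baumgartner axioms), piece BAF-6: the weak axiom gives large bounded subsets.
-/

set_option autoImplicit false

namespace Pool.Agent.R293.Ba

open Cardinal Set Pool.Agent.R592.Ba

/-- The homeomorphism of the square of the Cantor space with the Cantor space. -/
def pr : X × X ≃ₜ X where
  toFun p := fun n => if n % 2 = 0 then p.1 (n / 2) else p.2 (n / 2)
  invFun z := (fun n => z (2 * n), fun n => z (2 * n + 1))
  left_inv p := by
    refine Prod.ext (funext fun n => ?_) (funext fun n => ?_)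
    · have h1 : 2 * n % 2 = 0 := by omega
      have h2 : 2 * n / 2 = n := by omega
      simp only [h1, h2, if_true]
    · have h1 : ¬ (2 * n + 1) % 2 = 0 := by omega
      have h2 : (2 * n + 1) / 2 = n := by omega
      simp only [h1, h2, if_false]
  right_inv z := by
    funext n
    by_cases h : n % 2 = 0
    · have h2 : 2 * (n / 2) = n := by omega
      simp only [h, if_true, h2]
    · have h2 : 2 * (n / 2) + 1 = n := by omega
      simp only [h, if_false, h2]
  continuous_toFun := by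
    refine continuous_pi fun n => ?_
    by_cases h : n % 2 = 0
    · simp only [h, if_true]
      exact (continuous_apply _).comp continuous_fst
    · simp only [h, if_false]
      exact (continuous_apply _).comp continuous_snd
  continuous_invFun := by
    refine Continuous.prodMk (continuous_pi fun n => ?_) (continuous_pi fun n => ?_)
    · exact continuous_apply _
    · exact continuous_apply _

theorem app_cont (s : List Bool) : Continuous (app s) := by
  refine continuous_pi fun i => ?_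
  unfold app
  by_cases h : i < s.length
  · simp only [h, dif_pos]
    exact continuous_const
  · simp only [h, dif_neg, not_false_iff]
    exact continuous_apply _

theorem app_inj (s : List Bool) : Function.Injective (app s) := by
  intro x y h
  funext i
  have h1 := congrFun h (i + s.length)
  unfold app at h1
  have h2 : ¬ i + s.length < s.length := by omega
  simp only [h2, dif_neg, not_false_iff, Nat.add_sub_cancel] at h1
  exact h1

theorem app_mem (s : List Bool) (x : X) : app s x ∈ cyl s := by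
  intro i h
  unfold app
  rw [dif_pos h]

theorem exists_cyl {U : Set X} (hU : IsOpen U) (hne : U.Nonempty) : ∃ s, cyl s ⊆ U := by
  obtain ⟨x, hx⟩ := hne
  obtain ⟨v, ⟨y, n, rfl⟩, hxv, hv⟩ :=
    (PiNat.isTopologicalBasis_cylinders (fun _ => Bool)).exists_subset_of_mem_open hx hU
  refine ⟨List.ofFn fun i : Fin n => y i, fun z hz => hv ?_⟩
  rw [PiNat.mem_cylinder_iff]
  intro i hi
  have h1 := hz i (by rw [List.length_ofFn]; exact hi)
  rw [h1, List.getElem_ofFn]

theorem conc : Conc := by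
  intro hE κ hcof hκc hBA E hEκ
  obtain ⟨e, he, hd, hQc, hQd, hK⟩ := hE
  have hκ0 : ℵ₀ < κ := hcof.trans_le (Ordinal.cof_ord_le κ)
  by_contra hcon
  push Not at hcon
  have hlt : ∀ g : ℕ → ℕ, #({f ∈ E | ∀ n, f n ≤ g n} : Set W) < κ := by
    intro g
    refine lt_of_le_of_ne ?_ (hcon g)
    rw [← hEκ]
    exact mk_le_mk_of_subset (sep_subset _ _)
  set Q : Set X := (range e)ᶜ with hQ
  set A1 : Set X := ⋃ s : List Bool, app s '' (e '' E ∪ Q) with hA1
  set C1 : Set X := ⋃ s : List Bool, app s '' Q with hC1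
  have hC1A : C1 ⊆ A1 := iUnion_mono fun s => image_mono subset_union_right
  have hC1c : C1.Countable := countable_iUnion fun s => hQc.image _
  -- the size of `A1`
  have hunion : ∀ (S : List Bool → Set X), (∀ s, #(S s) ≤ κ) → #(⋃ s, S s) ≤ κ := by
    intro S hS
    refine (mk_iUnion_le S).trans ?_
    calc #(List Bool) * ⨆ s, #(S s) ≤ ℵ₀ * κ :=
          mul_le_mul' mk_le_aleph0 (ciSup_le' hS)
      _ ≤ κ * κ := mul_le_mul' hκ0.le le_rfl
      _ = κ := mul_eq_self hκ0.le
  have hA1κ : #A1 ≤ κ := by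
    refine hunion _ fun s => mk_image_le.trans ((mk_union_le _ _).trans ?_)
    calc #(e '' E) + #Q ≤ κ + ℵ₀ :=
          add_le_add (mk_image_le.trans hEκ.le) (le_aleph0_iff_set_countable.2 hQc)
      _ ≤ κ + κ := add_le_add le_rfl hκ0.le
      _ = κ := add_eq_self hκ0.le
  have hdA1 : KDense κ A1 := by
    intro U hU hne
    refine le_antisymm ((mk_le_mk_of_subset inter_subset_left).trans hA1κ) ?_
    obtain ⟨s, hs⟩ := exists_cyl hU hne
    have h1 : app s '' (e '' E) ⊆ A1 ∩ U := by
      rintro _ ⟨y, hy, rfl⟩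
      exact ⟨mem_iUnion.2 ⟨s, y, Or.inl hy, rfl⟩, hs (app_mem s y)⟩
    calc κ = #E := hEκ.symm
      _ = #(e '' E) := (mk_image_eq he.injective).symm
      _ = #(app s '' (e '' E)) := (mk_image_eq (app_inj s)).symm
      _ ≤ _ := mk_le_mk_of_subset h1
  -- closed sets that miss `C1` contain few points of `A1`
  have hstar : ∀ K : Set X, IsClosed K → Disjoint K C1 → #(↥(A1 ∩ K)) < κ := by
    intro K hKc hKd
    have h1 : ∀ s : List Bool, ∃ g : ℕ → ℕ, ∀ f : W, e f ∈ app s ⁻¹' K → ∀ n, f n ≤ g n := by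
      intro s
      refine hK _ (hKc.preimage (app_cont s)) ?_
      intro x hx
      by_contra hxr
      exact disjoint_left.1 hKd hx (mem_iUnion.2 ⟨s, x, hxr, rfl⟩)
    choose g hg using h1
    have h2 : A1 ∩ K ⊆ ⋃ s : List Bool, app s '' (e '' {f ∈ E | ∀ n, f n ≤ g s n}) := by
      rintro x ⟨hx, hxK⟩
      obtain ⟨s, y, hy, rfl⟩ := mem_iUnion.1 hx
      rcases hy with ⟨f, hf, rfl⟩ | hy
      · exact mem_iUnion.2 ⟨s, e f, ⟨f, ⟨hf, hg s f hxK⟩, rfl⟩, rfl⟩
      · exact (disjoint_left.1 hKd hxK (mem_iUnion.2 ⟨s, y, hy, rfl⟩)).elim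
    refine (mk_le_mk_of_subset h2).trans_lt ((mk_iUnion_le _).trans_lt ?_)
    refine mul_lt_of_lt hκ0.le (mk_le_aleph0.trans_lt hκ0) ?_
    refine iSup_lt_of_lt_cof_ord (mk_le_aleph0.trans_lt hcof) fun s => ?_
    exact mk_image_le.trans_lt (mk_image_le.trans_lt (hlt (g s)))
  -- the second set
  set A2 : Set X := pr '' (A1 ×ˢ A1) with hA2
  have hA2κ : #A2 ≤ κ := by
    refine mk_image_le.trans ?_
    rw [mk_setProd]
    calc #A1 * #A1 ≤ κ * κ := mul_le_mul' hA1κ hA1κ
      _ = κ := mul_eq_self hκ0.le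
  have hA1univ : #A1 = κ := by
    have h1 := hdA1 univ isOpen_univ ⟨fun _ => true, trivial⟩
    rwa [inter_univ] at h1
  have hA1ne : A1.Nonempty := by
    rw [← nonempty_coe_sort, ← mk_ne_zero_iff, hA1univ]
    exact (zero_le.trans_lt hκ0).ne'
  have hdA2 : KDense κ A2 := by
    intro U hU hne
    refine le_antisymm ((mk_le_mk_of_subset inter_subset_left).trans hA2κ) ?_
    obtain ⟨z, hz⟩ := hne
    have h1 : IsOpen (pr ⁻¹' U) := hU.preimage pr.continuous
    have h2 : ((pr.symm z).1, (pr.symm z).2) ∈ pr ⁻¹' U := by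
      change pr (pr.symm z) ∈ U
      rw [pr.apply_symm_apply]
      exact hz
    obtain ⟨V, V', hV, hV', hzV, hzV', hVV⟩ := isOpen_prod_iff.1 h1 _ _ h2
    have h3 := hdA1 V hV ⟨_, hzV⟩
    have h4 := hdA1 V' hV' ⟨_, hzV'⟩
    have h5 : (A1 ∩ V').Nonempty := by
      rw [← nonempty_coe_sort, ← mk_ne_zero_iff, h4]
      exact (zero_le.trans_lt hκ0).ne'
    obtain ⟨w, hw, hwV⟩ := h5
    have h6 : (fun x => pr (x, w)) '' (A1 ∩ V) ⊆ A2 ∩ U := by
      rintro _ ⟨x, ⟨hx, hxV⟩, rfl⟩
      exact ⟨⟨(x, w), ⟨hx, hw⟩, rfl⟩, hVV ⟨hxV, hwV⟩⟩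
    have h7 : Function.Injective fun x : X => pr (x, w) := fun x y hxy =>
      congrArg Prod.fst (pr.injective hxy)
    calc κ = #(↥(A1 ∩ V)) := h3.symm
      _ = #((fun x => pr (x, w)) '' (A1 ∩ V)) := (mk_image_eq h7).symm
      _ ≤ _ := mk_le_mk_of_subset h6
  obtain ⟨h⟩ := hBA A1 A2 hdA1 hdA2
  -- a line that misses the image of `C1`
  set C2 : Set X := (fun c : A1 => (h c : X)) '' {c | (c : X) ∈ C1} with hC2
  have hC2c : C2.Countable := by
    refine Countable.image ?_ _
    exact hC1c.preimage Subtype.val_injective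
  have hx : ∃ x ∈ A1, x ∉ (fun z => (pr.symm z).1) '' C2 := by
    by_contra hcon2
    push Not at hcon2
    have h1 : A1 ⊆ (fun z => (pr.symm z).1) '' C2 := hcon2
    have h2 : A1.Countable := (hC2c.image _).mono h1
    have h3 := le_aleph0_iff_set_countable.2 h2
    rw [hA1univ] at h3
    exact absurd h3 (not_le.2 hκ0)
  obtain ⟨x, hxA, hxC⟩ := hx
  set T : Set A1 := {a | (pr.symm (h a : X)).1 = x} with hT
  have hTc : IsClosed T := by
    have h1 : Continuous fun a : A1 => (pr.symm (h a : X)).1 :=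
      continuous_fst.comp (pr.symm.continuous.comp (continuous_subtype_val.comp h.continuous))
    exact isClosed_singleton.preimage h1
  obtain ⟨K, hKc, hKT⟩ := isClosed_induced_iff.1 hTc
  have hKd : #(↥(A1 ∩ K)) < κ ∨ ¬ Disjoint K C1 := by
    by_cases h1 : Disjoint K C1
    · exact Or.inl (hstar K hKc h1)
    · exact Or.inr h1
  rcases hKd with h1 | h1
  · -- too few points
    have h2 : (fun y : X => pr (x, y)) '' A1 ⊆ (fun a : A1 => (h a : X)) '' T := by
      rintro _ ⟨y, hy, rfl⟩
      have h3 : pr (x, y) ∈ A2 := ⟨(x, y), ⟨hxA, hy⟩, rfl⟩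
      refine ⟨h.symm ⟨_, h3⟩, ?_, ?_⟩
      · change (pr.symm (h (h.symm ⟨_, h3⟩) : X)).1 = x
        rw [h.apply_symm_apply]
        change (pr.symm (pr (x, y))).1 = x
        rw [pr.symm_apply_apply]
      · change ((h (h.symm ⟨_, h3⟩) : A2) : X) = _
        rw [h.apply_symm_apply]
    have h3 : Function.Injective fun y : X => pr (x, y) := fun y z hyz =>
      congrArg Prod.snd (pr.injective hyz)
    have h4 : κ ≤ #T := by
      calc κ = #A1 := hA1univ.symm
        _ = #((fun y : X => pr (x, y)) '' A1) := (mk_image_eq h3).symm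
        _ ≤ #((fun a : A1 => (h a : X)) '' T) := mk_le_mk_of_subset h2
        _ ≤ #T := mk_image_le
    have h5 : #T ≤ #(↥(A1 ∩ K)) := by
      have h6 : #T = #(Subtype.val '' T) := (mk_image_eq Subtype.val_injective).symm
      rw [h6]
      refine mk_le_mk_of_subset ?_
      rintro _ ⟨a, ha, rfl⟩
      refine ⟨a.2, ?_⟩
      rw [← hKT] at ha
      exact ha
    exact absurd (h4.trans h5) (not_le.2 h1)
  · rw [not_disjoint_iff] at h1
    obtain ⟨c, hcK, hcC⟩ := h1
    have h2 : (⟨c, hC1A hcC⟩ : A1) ∈ T := by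
      rw [← hKT]
      exact hcK
    apply hxC
    exact ⟨_, ⟨⟨c, hC1A hcC⟩, hcC, rfl⟩, h2⟩

end Pool.Agent.R293.Ba
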